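import Pool.Agent.Y639.Inq.Main
import Pool.Agent.Y639.Inq.MainV
import Pool.Agent.Y639.Inq.Cont

/-!
# Inquisitive first-order logic: cardinalities of countermodels

For every signature with a predicate symbol of arity at least 2 (syntax, models and support as in
`UncountableDomain`):

(1) There is a formula which is refuted by a model with a countable universe and a domain of
cardinality `2 ^ ℵ₀`, and is supported at every state under every assignment in every model whose
domain has cardinality less than `2 ^ ℵ₀`.

(2) There is a formula which is refuted by a model whose universe and domain both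
have cardinality `ℶ_ω`, and is supported at every state under every assignment in every model
whose universe or whose domain has cardinality less than `ℶ_ω`.

(3) There is a formula whose validity is equivalent to the non-existence of (strongly, uncountable)
inaccessible cardinals: for every inaccessible cardinal `κ` it is refuted by a model whose universe
and domain have cardinality `κ`, and for every model that refutes it there is an inaccessible
cardinal `κ` such that the universe and the domain have at least `κ` elements.

Idea. Worlds carry marks: a world marks at most one name `x` (by `R(x,x)`), it has a bit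
(`R(x₀,x₀)` for a parameter `x₀`) and, for (3), a second mark `y` (by `R(x₀,y)`). If the conclusion
is not supported, all combinations of marks and bits occur in the state. The names carry a rigid
membership relation. A substate that decides the bit at the marks which are elements of a name
is the same as a set of elements of the name, and a substate in which the second mark depends on
the first one is the same as a function; so the premise can express the power set axiom for full
power sets and the replacement axiom for all functions. The set of the numbers of elements of the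
names is then closed under powers, contains `ℵ₀` and, in (3), has an inaccessible supremum.
-/

set_option autoImplicit false

namespace Pool.Agent.Results.MP_130315_lc.LoewenheimNumber

open Pool.Agent.Results.MP_130315_lc.UncountableDomain
open Cardinal

universe a b u v

/-- **Main theorem.** Let `σ` be a signature with a predicate symbol `R` of arity at least 2.

(1) Some formula of InqBQ is refuted by a model with countable universe and with domain of
cardinality `2 ^ ℵ₀`, but it is supported at every state under every assignment in every model
whose domain has cardinality less than `2 ^ ℵ₀`.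

(2) Some formula of InqBQ is refuted by a model whose universe and domain both
have cardinality `ℶ_ω`, but it is supported at every state under every assignment in every model
whose universe or whose domain has cardinality less than `ℶ_ω`.

(3) Some formula `φ` of InqBQ satisfies: for every inaccessible cardinal `κ` a model whose universe
and domain both have cardinality `κ` refutes `φ`; for every model which refutes `φ` there is an
inaccessible cardinal `κ` with `κ ≤ |D|` and `κ ≤ |W|`; and so `φ` is valid (in the models
whose universe and domain are in the universe `v` of types) if and only if there is no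
inaccessible cardinal (in this universe). -/
theorem result (σ : Sig.{a, b}) (R : σ.Pred) (hR : 2 ≤ σ.predAr R) :
    (∃ φ : Fml σ,
      (∃ M : Model.{a, b, 0, 0} σ, Countable M.W ∧ #M.D = 𝔠 ∧
        ∃ (s : Set M.W) (g : ℕ → M.D), ¬ Supports M s g φ) ∧
      (∀ M : Model.{a, b, u, v} σ, #M.D < 𝔠 →
        ∀ (s : Set M.W) (g : ℕ → M.D), Supports M s g φ)) ∧
    (∃ φ : Fml σ,
      (∃ M : Model.{a, b, 0, 0} σ, #M.W = ℶ_ Ordinal.omega0 ∧ #M.D = ℶ_ Ordinal.omega0 ∧
        ∃ (s : Set M.W) (g : ℕ → M.D), ¬ Supports M s g φ) ∧
      (∀ M : Model.{a, b, u, v} σ, (#M.W < ℶ_ Ordinal.omega0 ∨ #M.D < ℶ_ Ordinal.omega0) →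
        ∀ (s : Set M.W) (g : ℕ → M.D), Supports M s g φ)) ∧
    (∃ φ : Fml σ,
      (∀ κ : Cardinal.{v}, κ.IsInaccessible →
        ∃ M : Model.{a, b, v, v} σ, #M.W = κ ∧ #M.D = κ ∧
          ∃ (s : Set M.W) (g : ℕ → M.D), ¬ Supports M s g φ) ∧
      (∀ (M : Model.{a, b, u, v} σ) (s : Set M.W) (g : ℕ → M.D), ¬ Supports M s g φ →
        ∃ κ : Cardinal.{v}, κ.IsInaccessible ∧ κ ≤ #M.D ∧
          Cardinal.lift.{u} κ ≤ Cardinal.lift.{v} #M.W) ∧
      ((∀ (M : Model.{a, b, v, v} σ) (s : Set M.W) (g : ℕ → M.D), Supports M s g φ) ↔
        ¬ ∃ κ : Cardinal.{v}, κ.IsInaccessible)) := by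
  refine ⟨⟨phi R, ⟨cm σ R, ?_, Pool.Agent.Y639.Inq.mk_Ind, Set.univ, g0 σ R, ?_⟩, ?_⟩,
    ⟨Pool.Agent.Y639.Inq.phi' R, ⟨Pool.Agent.Y639.Inq.cmT σ R, Pool.Agent.Y639.Inq.mk_W R, Pool.Agent.Y639.Inq.mk_D R, Set.univ,
    Pool.Agent.Y639.Inq.gT σ R, ?_⟩, ?_⟩, ⟨Pool.Agent.Y639.Inq.phiV R, ?_, ?_, ?_⟩⟩
  · change Countable (ℕ × Bool)
    infer_instance
  · intro h
    exact cm_not_chi R hR (h Set.univ (Set.Subset.refl _) (cm_theta R hR))
  · intro M hM s g t _ hθ
    by_contra hχ
    exact absurd (Pool.Agent.Y639.Inq.continuum_le M R t g hθ hχ) (not_le.2 hM)
  · intro h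
    exact Pool.Agent.Y639.Inq.cmT_chi R hR (h Set.univ (Set.Subset.refl _) (Pool.Agent.Y639.Inq.cmT_thet R hR))
  · intro M hM s g t _ hθ
    by_contra hχ
    obtain ⟨h1, h2⟩ := Pool.Agent.Y639.Inq.big_of_refutes M R t g hθ hχ
    rcases hM with h | h
    · exact absurd h1 (not_le.2 h)
    · exact absurd h2 (not_le.2 h)
  · intro κ hκ
    exact Pool.Agent.Y639.Inq.exists_countermodel σ R hR hκ
  · intro M s g h
    by_contra hcon
    apply h
    intro t _ hθ
    by_contra hχ
    exact hcon (Pool.Agent.Y639.Inq.inacc_of_refutes M R t g hθ hχ)
  · constructor
    · rintro h ⟨κ, hκ⟩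
      obtain ⟨M, _, _, s, g, hM⟩ := Pool.Agent.Y639.Inq.exists_countermodel σ R hR hκ
      exact hM (h M s g)
    · intro hno M s g t _ hθ
      by_contra hχ
      obtain ⟨κ, hκ, _⟩ := Pool.Agent.Y639.Inq.inacc_of_refutes M R t g hθ hχ
      exact hno ⟨κ, hκ⟩

end Pool.Agent.Results.MP_130315_lc.LoewenheimNumber
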