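import Pool.Agent.Y558.IQ.Low
import Pool.Agent.Y558.IQ.Up
import Pool.Agent.Y558.IQ.Unc
import Pool.Agent.Y558.IQ.Sol2
import Pool.Agent.Y558.IQ.Rev2

set_option autoImplicit false

/-!
# The Löwenheim number of inquisitive first-order logic is that of full second-order logic

For every second-order formula `Θ` there is a formula of InqBQ which is valid if and only if `Θ`
has no models, and the sizes of the countermodels correspond to the sizes of the models: a
countermodel with at most `κ` worlds or at most `κ` individuals yields a model of `Θ` with at most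
`κ` elements, a model with `κ` elements yields a countermodel with `2 ^ κ` worlds and individuals.
For signatures without function symbols there is also a translation back, so the cardinals which
bound the smallest countermodels in InqBQ are exactly the cardinals which bound the smallest models
in second-order logic. With a sentence which says that the universe is uncountable one gets an
invalidity which is not refuted by any model with countably many worlds or countably many
individuals. The definitions of InqBQ are those of the starting file `UncountableDomain`.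
-/

namespace Pool.Agent.Results.MP_130315_lc.SecondOrderLogic

open Pool.Agent.Results.MP_130315_lc.UncountableDomain Pool.Agent.Y558.IQ Cardinal

universe a b u v

/-- The second-order formula `Θ` (its free relation variables are the vocabulary) has a model with
universe `B`. -/
def HasModelOn (Θ : SO) (B : Type v) : Prop :=
  Nonempty B ∧ ∃ (s : ℕ → B) (U : ℕ → Set B) (r : ℕ → B → B → Prop), Θ.Eval s U r

/-- The formula `φ` of InqBQ is refuted by the model `M`. -/
def Refutes {σ : Sig.{a, b}} (M : Model.{a, b, u, v} σ) (φ : Fml σ) : Prop :=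
  ∃ (s : Set M.W) (g : ℕ → M.D), ¬ Supports M s g φ

/-- Every formula of InqBQ which is refuted by some model is refuted by a model with at most `κ`
worlds and at most `κ` individuals. -/
def BoundsCountermodels (σ : Sig.{a, b}) (κ : Cardinal.{v}) : Prop :=
  ∀ φ : Fml σ, (∃ M : Model.{a, b, v, v} σ, Refutes M φ) →
    ∃ M : Model.{a, b, v, v} σ, #M.W ≤ κ ∧ #M.D ≤ κ ∧ Refutes M φ

/-- Every second-order formula which has a model has a model with at most `κ` elements. -/
def BoundsModels (κ : Cardinal.{v}) : Prop :=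
  ∀ Θ : SO, (∃ B : Type v, HasModelOn Θ B) → ∃ B : Type v, #B ≤ κ ∧ HasModelOn Θ B

theorem up' {σ : Sig.{a, b}} (R : σ.Pred) (hR : 2 ≤ σ.predAr R) (Θ : SO) (B : Type v)
    (hB : HasModelOn Θ B) : ∃ M : Model.{a, b, v, v} σ,
      #M.W ≤ max ℵ₀ (2 ^ #B) ∧ #M.D ≤ max ℵ₀ (2 ^ #B) ∧ Refutes M (fm R (psi4 Θ)) := by
  obtain ⟨⟨x⟩, s, U, r, h⟩ := hB
  obtain ⟨k1, k2, k3⟩ := full3 (B := B)
  obtain ⟨M, hW, hD, hM⟩ := up R hR (psi4 Θ) (E3 (B := B)) (g3 s U r) k1 k2
    (so_up2 Θ s U r h) ⟨X3 x, Option.some_ne_none _⟩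
  refine ⟨M, ?_, ?_, hM⟩
  · have e1 : #({x : SA B // x ≠ g3 s U r 0} × Bool) = #{x : SA B // x ≠ g3 s U r 0} * 2 := by
      simp
    have e2 : (2 : Cardinal.{v}) ≤ max ℵ₀ (2 ^ #B) := by
      have := (natCast_lt_aleph0.{v} (n := 2)).le
      exact (by exact_mod_cast this : (2 : Cardinal.{v}) ≤ ℵ₀).trans (le_max_left _ _)
    rw [hW, e1]
    exact (mul_le_mul' ((Cardinal.mk_subtype_le _).trans mk_SA) e2).trans
      (Cardinal.mul_eq_self (le_max_left _ _)).le
  · rw [hD]
    exact mk_SA

theorem down' {σ : Sig.{a, b}} (R : σ.Pred) (Θ : SO)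
    (M : Model.{a, b, u, v} σ) (hM : Refutes M (fm R (psi4 Θ))) : ∃ B : Type v,
      #B ≤ #M.D ∧ Cardinal.lift.{u} #B ≤ Cardinal.lift.{v} #M.W ∧ HasModelOn Θ B := by
  obtain ⟨s, g, h⟩ := hM
  obtain ⟨A, E, g', k1, k2, k3, k4, k5⟩ := low M R _ s g h
  obtain ⟨B, l1, l2, l3, l4⟩ := so_down2 E g' k2 Θ k3
  exact ⟨B, l2.trans k4, (Cardinal.lift_le.{u}.2 l3).trans k5, l1, l4⟩

theorem back {σ : Sig.{a, b}} [IsEmpty σ.Fn] (c : σ.Pred → ℕ) (φ : Fml σ)
    (hc : Set.InjOn c (prs φ)) : (∀ M : Model.{a, b, v, v} σ, Refutes M φ → ∃ B : Type v,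
      #B ≤ max ℵ₀ (max #M.W #M.D) ∧ HasModelOn (revS c φ) B) ∧
      ∀ B : Type v, HasModelOn (revS c φ) B →
        ∃ M : Model.{a, b, v, v} σ, #M.W ≤ #B ∧ #M.D ≤ #B ∧ Refutes M φ := by
  refine ⟨?_, ?_⟩
  · rintro M ⟨s, g, h⟩
    obtain ⟨B, hB, hle, s', U, r, h'⟩ := rev_up c φ hc M s g h
    exact ⟨B, hle, hB, s', U, r, h'⟩
  · rintro B ⟨-, s, U, r, h⟩
    exact rev_down c φ s U r h

/-- Let `R` be a predicate symbol of arity at least 2 of the signature `σ`.

(1) For every second-order formula `Θ`, some formula `φ` of InqBQ has the following properties. If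
`Θ` has a model with universe `B`, then `φ` is refuted by a model whose sets of worlds and of
individuals have at most `max ℵ₀ (2 ^ |B|)` elements. If `φ` is refuted by the model `M`, then `Θ`
has a model whose universe has at most as many elements as `M` has individuals and at most as many
elements as `M` has worlds. So `φ` is valid if and only if `Θ` has no models.

(2) Some formula of InqBQ is not valid, but it is not refuted by any model with countably many
worlds or countably many individuals.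

(3) Let `σ` have no function symbols. For every formula `φ` of InqBQ some second-order formula `Θ`
has the following properties. If `φ` is refuted by a model with sets of worlds and individuals `W`
and `D`, then `Θ` has a model with at most `max ℵ₀ |W| |D|` elements. If `Θ` has a model with
universe `B`, then `φ` is refuted by a model with at most `|B|` worlds and individuals. The
smallest countermodels of the invalidities of InqBQ in `σ` are bounded by `κ` if and only if the
smallest models of the satisfiable second-order formulas are bounded by `κ`. -/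
theorem result (σ : Sig.{a, b}) (R : σ.Pred) (hR : 2 ≤ σ.predAr R) :
    (∀ Θ : SO, ∃ φ : Fml σ,
      (∀ B : Type v, HasModelOn Θ B → ∃ M : Model.{a, b, v, v} σ,
        #M.W ≤ max ℵ₀ (2 ^ #B) ∧ #M.D ≤ max ℵ₀ (2 ^ #B) ∧ Refutes M φ) ∧
      (∀ M : Model.{a, b, u, v} σ, Refutes M φ → ∃ B : Type v,
        #B ≤ #M.D ∧ Cardinal.lift.{u} #B ≤ Cardinal.lift.{v} #M.W ∧ HasModelOn Θ B) ∧
      ((∀ M : Model.{a, b, v, v} σ, ¬ Refutes M φ) ↔ ∀ B : Type v, ¬ HasModelOn Θ B)) ∧
    (∃ φ : Fml σ, (∃ M : Model.{a, b, 0, 0} σ, Refutes M φ) ∧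
      ∀ M : Model.{a, b, u, v} σ, Countable M.W ∨ Countable M.D → ¬ Refutes M φ) ∧
    (IsEmpty σ.Fn →
      (∀ φ : Fml σ, ∃ Θ : SO,
        (∀ M : Model.{a, b, v, v} σ, Refutes M φ → ∃ B : Type v,
          #B ≤ max ℵ₀ (max #M.W #M.D) ∧ HasModelOn Θ B) ∧
        ∀ B : Type v, HasModelOn Θ B →
          ∃ M : Model.{a, b, v, v} σ, #M.W ≤ #B ∧ #M.D ≤ #B ∧ Refutes M φ) ∧
      ∀ κ : Cardinal.{v}, BoundsCountermodels σ κ ↔ BoundsModels κ) := by
  refine ⟨fun Θ => ⟨fm R (psi4 Θ), up' R hR Θ, down' R Θ, ?_, ?_⟩,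
    ⟨fm R (psi4 unc), ?_, ?_⟩, ?_⟩
  · intro h B hB
    obtain ⟨M, -, -, hM⟩ := up' R hR Θ B hB
    exact h M hM
  · intro h M hM
    obtain ⟨B, -, -, hB⟩ := down' R Θ M hM
    exact h B hB
  · obtain ⟨M, -, -, hM⟩ := up' R hR unc (Set ℕ) ⟨inferInstance, fun _ => ∅, fun _ => ∅,
      fun _ _ _ => False, (unc_iff _ _ _).2 (by
        intro h
        obtain ⟨f, hf⟩ := h.exists_injective_nat
        exact Function.cantor_injective f hf)⟩
    exact ⟨M, hM⟩
  · intro M hc hM
    obtain ⟨B, h1, h2, h3, s, U, r, h4⟩ := down' R unc M hM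
    refine (unc_iff s U r).1 h4 ?_
    rw [← Cardinal.mk_le_aleph0_iff]
    rcases hc with hc | hc
    · rw [← Cardinal.mk_le_aleph0_iff] at hc
      have := h2.trans (Cardinal.lift_le.{v}.2 hc)
      rw [Cardinal.lift_aleph0] at this
      exact Cardinal.lift_le_aleph0.1 this
    · rw [← Cardinal.mk_le_aleph0_iff] at hc
      exact h1.trans hc
  · intro hF
    have hb : ∀ φ : Fml σ, ∃ c : σ.Pred → ℕ, Set.InjOn c (prs φ) := fun φ =>
      Set.countable_iff_exists_injOn.1 (prs_finite φ).countable
    refine ⟨fun φ => ?_, fun κ => ⟨?_, ?_⟩⟩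
    · obtain ⟨c, hc⟩ := hb φ
      exact ⟨revS c φ, back c φ hc⟩
    · rintro h Θ ⟨B, hB⟩
      obtain ⟨M, -, -, hM⟩ := up' R hR Θ B hB
      obtain ⟨M', -, hD, hM'⟩ := h _ ⟨M, hM⟩
      obtain ⟨B', h1, -, hB'⟩ := down' R Θ M' hM'
      exact ⟨B', h1.trans hD, hB'⟩
    · rintro h φ ⟨M, hM⟩
      obtain ⟨c, hc⟩ := hb φ
      obtain ⟨B0, -, hB0⟩ := (back c φ hc).1 M hM
      obtain ⟨B, hB, hB'⟩ := h _ ⟨B0, hB0⟩
      obtain ⟨M', h1, h2, h3⟩ := (back c φ hc).2 B hB'
      exact ⟨M', h1.trans hB, h2.trans hB, h3⟩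

end Pool.Agent.Results.MP_130315_lc.SecondOrderLogic
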